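import Mathlib
import Pool.Agent.H530R2.Gen1
import Pool.Agent.W943.Ork6

/-!
Coefficients with respect to few variables: linear programs and the base class.
-/

set_option autoImplicit false

namespace Pool.Agent.TH668.Few

open MvPolynomial Module Pool.Agent.H530R2 Pool.Agent.W943

section lin

variable {F : Type} [Field F] {n u : ℕ}

/-- the coefficients of a linear program with respect to the variables in `A` -/
theorem gn_lin {T : Set (MvPolynomial (Fin n) F)} {κ k c : ℕ}
    {c₀ : Fin u → MvPolynomial (Fin n) F}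
    (hc : ∀ i, ∃ y, c₀ i = C y)
    {M : ℕ → Matrix (Fin u) (Fin u) (MvPolynomial (Fin n) F)} (R : ℕ)
    (hκ : ∀ i, ((Finset.range R).filter fun b => i ∈ mv (M b)).card ≤ κ)
    {A : Finset (Fin n)} (hA : A.card ≤ k)
    (hsegT : ∀ a t, a + t ≤ R → ∀ i j,
      H530R2.lin (Pi.single i 1) (fun b => M (a + b)) t j ∈ T)
    (hcoef : ∀ b i j, Gn T A c (M b i j)) {f : MvPolynomial (Fin n) F}
    (hf : f ∈ Algebra.adjoin F (Set.range (H530R2.lin c₀ M R))) :
    Gn T A ((k * κ) * (u * u + u * u * c) + u * u) f := by
  classical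
  set al : ℕ → ℕ := fun t => ((Finset.range t).filter fun b => ¬ Disjoint A (mv (M b))).card
    with hal
  -- entries of segments
  have hseg : ∀ a t, a + t ≤ R → (∀ b, a ≤ b → b < a + t → Disjoint A (mv (M b))) →
      ∀ i j, H530R2.lin (Pi.single i 1) (fun b => M (a + b)) t j ∈ T ∧
        H530R2.lin (Pi.single i 1) (fun b => M (a + b)) t j ∈ supported F {k : Fin n | k ∉ A} := by
    intro a t hat hdis i j
    have hs0 : ∀ l : Fin u, ∃ y : F, (Pi.single i 1 : Fin u → MvPolynomial (Fin n) F) l = C y := by
      intro l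
      by_cases h : l = i
      · subst h
        exact ⟨1, by rw [Pi.single_eq_same, C_1]⟩
      · exact ⟨0, by rw [Pi.single_eq_of_ne h, C_0]⟩
    constructor
    · exact hsegT a t hat i j
    · refine lin_supp _ _ _ t ?_ ?_ j
      · intro l
        obtain ⟨y, hy⟩ := hs0 l
        rw [hy]
        exact Subalgebra.algebraMap_mem _ _
      · intro b hb i' j'
        refine supported_mono ?_ (mv_supp (M (a + b)) i' j')
        intro x hx hxA
        exact Finset.disjoint_left.1 (hdis (a + b) (by omega) (by omega)) hxA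
          (Finset.mem_coe.1 hx)
  have key : ∀ t, t ≤ R → ∃ a ≤ t, (∀ b, a ≤ b → b < t → Disjoint A (mv (M b))) ∧
      ∃ G : Set (MvPolynomial (Fin n) F), G.Finite ∧
        G.ncard ≤ al t * (u * u + u * u * c) ∧
        (∀ x ∈ G, x ∈ T ∧ x ∈ supported F {k : Fin n | k ∉ A}) ∧
        ∀ j, H530R2.lin c₀ M a j ∈ Algebra.adjoin F (X '' (A : Set (Fin n)) ∪ G) := by
    intro t
    induction t with
    | zero =>
      intro _
      refine ⟨0, le_rfl, fun b _ hb => absurd hb (Nat.not_lt_zero _), ∅, Set.finite_empty,
        by simp, fun x hx => absurd hx (Set.notMem_empty x), ?_⟩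
      intro j
      obtain ⟨y, hy⟩ := hc j
      show c₀ j ∈ _
      rw [hy]
      exact Subalgebra.algebraMap_mem _ _
    | succ t ih =>
      intro ht
      obtain ⟨a, hat, hdis, G, hG, hGc, hGT, hlin⟩ := ih (by omega)
      have hal1 : al (t + 1) = al t + if ¬ Disjoint A (mv (M t)) then 1 else 0 := by
        simp only [hal]
        rw [Finset.range_add_one, Finset.filter_insert]
        by_cases h : Disjoint A (mv (M t))
        · rw [if_neg (not_not.2 h), if_neg (not_not.2 h), Nat.add_zero]
        · rw [if_pos h, if_pos h, Finset.card_insert_of_notMem (by simp)]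
      by_cases hd : Disjoint A (mv (M t))
      · refine ⟨a, by omega, ?_, G, hG, ?_, hGT, hlin⟩
        · intro b hab hbt
          rcases Nat.lt_succ_iff_lt_or_eq.1 hbt with h | h
          · exact hdis b hab h
          · rw [h]; exact hd
        · rw [hal1, if_neg (not_not.2 hd), Nat.add_zero]
          exact hGc
      · -- an alive step
        choose Γ hΓ hΓc hΓT hΓg using hcoef
        obtain ⟨d, rfl⟩ := Nat.exists_eq_add_of_le hat
        set G1 : Set (MvPolynomial (Fin n) F) := Set.range fun ij : Fin u × Fin u =>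
          H530R2.lin (Pi.single ij.1 1) (fun b => M (a + b)) d ij.2 with hG1
        set G2 : Set (MvPolynomial (Fin n) F) :=
          ⋃ ij : Fin u × Fin u, Γ (a + d) ij.1 ij.2 with hG2
        have hs := hseg a d (by omega) hdis
        refine ⟨a + d + 1, le_rfl, fun b h1 h2 => absurd h2 (by omega), G ∪ (G1 ∪ G2), ?_, ?_,
          ?_, ?_⟩
        · exact hG.union ((Set.finite_range _).union (Set.finite_iUnion fun ij => hΓ _ _ _))
        · rw [hal1, if_pos hd, add_mul, one_mul]
          refine (Set.ncard_union_le _ _).trans (Nat.add_le_add hGc ?_)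
          refine (Set.ncard_union_le _ _).trans (Nat.add_le_add ?_ ?_)
          · have h1 : G1.ncard ≤ Fintype.card (Fin u × Fin u) := by
              rw [← Nat.card_eq_fintype_card]
              exact Finite.card_range_le _
            rwa [Fintype.card_prod, Fintype.card_fin] at h1
          · have h2 : G2.ncard ≤ ∑ ij : Fin u × Fin u, (Γ (a + d) ij.1 ij.2).ncard :=
              Set.ncard_iUnion_le_of_fintype _
            refine h2.trans ?_
            calc ∑ ij : Fin u × Fin u, (Γ (a + d) ij.1 ij.2).ncard
                ≤ ∑ _ij : Fin u × Fin u, c := Finset.sum_le_sum fun ij _ => hΓc _ _ _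
              _ = u * u * c := by
                rw [Finset.sum_const, Finset.card_univ, Fintype.card_prod, Fintype.card_fin,
                  smul_eq_mul]
        · rintro x (hx | ⟨ij, rfl⟩ | hx)
          · exact hGT x hx
          · exact hs ij.1 ij.2
          · obtain ⟨ij, hij⟩ := Set.mem_iUnion.1 hx
            exact hΓT _ _ _ x hij
        · intro j
          rw [lin_succ]
          refine Subalgebra.sum_mem _ fun l _ => Subalgebra.mul_mem _ ?_ ?_
          · rw [lin_add]
            refine Subalgebra.sum_mem _ fun i _ => Subalgebra.mul_mem _ ?_ ?_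
            · exact Algebra.adjoin_mono (Set.union_subset_union_right _ Set.subset_union_left)
                (hlin i)
            · exact Algebra.subset_adjoin (Or.inr (Or.inr (Or.inl ⟨(i, l), rfl⟩)))
          · refine Algebra.adjoin_mono (Set.union_subset_union_right _ ?_) (hΓg (a + d) l j)
            refine Set.Subset.trans ?_ (Set.subset_union_right.trans Set.subset_union_right)
            exact Set.subset_iUnion (fun ij : Fin u × Fin u => Γ (a + d) ij.1 ij.2) (l, j)
  obtain ⟨a, haR, hdis, G, hG, hGc, hGT, hlin⟩ := key R le_rfl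
  obtain ⟨d, hd⟩ := Nat.exists_eq_add_of_le haR
  have hs := hseg a d (by omega) (by rw [← hd]; exact hdis)
  have halR : al R ≤ k * κ := by
    have h1 : (Finset.range R).filter (fun b => ¬ Disjoint A (mv (M b))) ⊆
        A.biUnion fun i => (Finset.range R).filter fun b => i ∈ mv (M b) := by
      intro b hb
      obtain ⟨hb1, hb2⟩ := Finset.mem_filter.1 hb
      rw [Finset.not_disjoint_iff] at hb2
      obtain ⟨i, hi1, hi2⟩ := hb2
      exact Finset.mem_biUnion.2 ⟨i, hi1, Finset.mem_filter.2 ⟨hb1, hi2⟩⟩
    refine (Finset.card_le_card h1).trans (Finset.card_biUnion_le.trans ?_)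
    calc ∑ i ∈ A, ((Finset.range R).filter fun b => i ∈ mv (M b)).card ≤ ∑ _i ∈ A, κ :=
          Finset.sum_le_sum fun i _ => hκ i
      _ = A.card * κ := by rw [Finset.sum_const, smul_eq_mul]
      _ ≤ k * κ := Nat.mul_le_mul_right _ hA
  set G1 : Set (MvPolynomial (Fin n) F) := Set.range fun ij : Fin u × Fin u =>
    H530R2.lin (Pi.single ij.1 1) (fun b => M (a + b)) d ij.2 with hG1
  refine ⟨G ∪ G1, hG.union (Set.finite_range _), ?_, ?_, ?_⟩
  · refine (Set.ncard_union_le _ _).trans (Nat.add_le_add (hGc.trans
      (Nat.mul_le_mul_right _ halR)) ?_)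
    have h1 : G1.ncard ≤ Fintype.card (Fin u × Fin u) := by
      rw [← Nat.card_eq_fintype_card]
      exact Finite.card_range_le _
    rwa [Fintype.card_prod, Fintype.card_fin] at h1
  · rintro x (hx | ⟨ij, rfl⟩)
    · exact hGT x hx
    · exact hs ij.1 ij.2
  · refine (Algebra.adjoin_le ?_) hf
    rintro _ ⟨j, rfl⟩
    rw [hd]
    show H530R2.lin c₀ M (a + d) j ∈ _
    rw [lin_add]
    refine Subalgebra.sum_mem _ fun i _ => Subalgebra.mul_mem _ ?_ ?_
    · exact Algebra.adjoin_mono (Set.union_subset_union_right _ Set.subset_union_left) (hlin i)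
    · exact Algebra.subset_adjoin (Or.inr (Or.inr ⟨(i, j), rfl⟩))

theorem lin_rowOf (v : Fin u → F) (M : ℕ → Matrix (Fin u) (Fin u) (MvPolynomial (Fin n) F))
    (t : ℕ) : H530R2.lin (fun j => C (v j)) M t = rowOf v M t := by
  induction t with
  | zero => rfl
  | succ t ih =>
    funext j
    rw [lin_succ, ih]
    rfl

/-- segments of linear programs over the classes of a family -/
theorem seg_mem [CharZero F] (𝔎 : FamO F) {W k : ℕ}
    (M : ℕ → Matrix (Fin u) (Fin u) (MvPolynomial (Fin n) F))
    (R : ℕ) (hM : ∀ t < R, ∀ l j, M t l j ∈ 𝔎.K n W)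
    (hR : ∀ x, ((Finset.range R).filter fun b => x ∈ mv (M b)).card ≤ k)
    (a t : ℕ) (hat : a + t ≤ R) (i j : Fin u) :
    H530R2.lin (Pi.single i 1) (fun b => M (a + b)) t j ∈
      (𝔎.next).K n (W + k + u * u + (u * u * 𝔎.bd W + 1) ^ k + 1) := by
  classical
  have h0 : (Pi.single i 1 : Fin u → MvPolynomial (Fin n) F) =
      fun j => C ((Pi.single i 1 : Fin u → F) j) := by
    funext l
    by_cases h : l = i
    · subst h
      rw [Pi.single_eq_same, Pi.single_eq_same, C_1]
    · rw [Pi.single_eq_of_ne h, Pi.single_eq_of_ne h, C_0]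
  rw [h0, lin_rowOf]
  have h1 := linear_mem 𝔎 (W := W) (k := k) (Pi.single i 1) (Pi.single j 1)
    (fun b => M (a + b)) t (fun b hb l j' => hM _ (by omega) l j') (fun x => by
      refine le_trans ?_ (hR x)
      refine Finset.card_le_card_of_injOn (fun b => a + b) ?_ ?_
      · intro b hb
        obtain ⟨hb1, hb2⟩ := Finset.mem_filter.1 (Finset.mem_coe.1 hb)
        have hb1 := Finset.mem_range.1 hb1
        exact Finset.mem_coe.2 (Finset.mem_filter.2
          ⟨Finset.mem_range.2 (show a + b < R by omega), mem_mv.2 hb2⟩)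
      · intro b _ b' _ h
        simpa using h)
  have h2 : ∑ j', rowOf (Pi.single i 1) (fun b => M (a + b)) t j' *
      C ((Pi.single j 1 : Fin u → F) j') = rowOf (Pi.single i 1) (fun b => M (a + b)) t j := by
    rw [Finset.sum_eq_single j]
    · rw [Pi.single_eq_same, C_1, mul_one]
    · intro l _ hl
      rw [Pi.single_eq_of_ne hl, C_0, mul_zero]
    · intro h
      exact absurd (Finset.mem_univ j) h
  rwa [h2] at h1

end lin

section base

variable {F : Type} [Field F] {n : ℕ}

theorem Gn.zero {T : Set (MvPolynomial (Fin n) F)} {A : Finset (Fin n)} {c : ℕ} :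
    Gn T A c 0 := Gn.supp (Subalgebra.zero_mem _)

open Classical in
theorem cpart_degree (f : MvPolynomial (Fin n) F) (A : Finset (Fin n)) (a : Fin n →₀ ℕ) :
    (H530R2.cpart f A a).totalDegree ≤ f.totalDegree := by
  unfold H530R2.cpart
  refine (totalDegree_finsetSum _ _).trans (Finset.sup_le fun e he => ?_)
  refine (totalDegree_monomial_le _ _).trans ?_
  refine le_trans ?_ (le_totalDegree (Finset.mem_filter.1 he).1)
  rw [Finsupp.filter_eq_sum]
  have h1 : (∑ i ∈ e.support with i ∉ A, Finsupp.single i (e i)).degree ≤ e.degree := by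
    rw [map_sum]
    simp only [Finsupp.degree_single]
    rw [Finsupp.degree_apply]
    exact Finset.sum_le_sum_of_subset (Finset.filter_subset _ _)
  exact h1

open Classical in
/-- coefficients of a polynomial of low degree -/
theorem low_gn {w k : ℕ} {f : MvPolynomial (Fin n) F} (hf : f.totalDegree ≤ w)
    {A : Finset (Fin n)} (hA : A.card ≤ k) :
    Gn {g : MvPolynomial (Fin n) F | g.totalDegree ≤ w} A ((w + 1) ^ k) f := by
  set E := f.support.image (fun e => e.filter (fun i => i ∈ A)) with hE
  have hle : ∀ e ∈ f.support, ∀ i, e i ≤ w := by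
    intro e he i
    refine le_trans ?_ ((le_totalDegree he).trans hf)
    by_cases hi : i ∈ e.support
    · exact Finset.single_le_sum (f := fun x => e x) (fun _ _ => Nat.zero_le _) hi
    · rw [Finsupp.notMem_support_iff.1 hi]; exact Nat.zero_le _
  have hEc : E.card ≤ (w + 1) ^ k := by
    have h1 : E.card ≤ (Fintype.piFinset fun _ : {i // i ∈ A} => Finset.range (w + 1)).card := by
      refine Finset.card_le_card_of_injOn (fun a i => a i.1) ?_ ?_
      · intro a ha
        obtain ⟨e, he, rfl⟩ := Finset.mem_image.1 (Finset.mem_coe.1 ha)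
        refine Finset.mem_coe.2 (Fintype.mem_piFinset.2 fun i => Finset.mem_range.2 ?_)
        show (e.filter fun i => i ∈ A) i.1 < w + 1
        rw [Finsupp.filter_apply, if_pos i.2]
        exact Nat.lt_succ_of_le (hle e he _)
      · intro a ha b hb hab
        obtain ⟨e, he, rfl⟩ := Finset.mem_image.1 (Finset.mem_coe.1 ha)
        obtain ⟨e', he', rfl⟩ := Finset.mem_image.1 (Finset.mem_coe.1 hb)
        ext i
        by_cases hi : i ∈ A
        · exact congrFun hab ⟨i, hi⟩
        · rw [Finsupp.filter_apply, Finsupp.filter_apply, if_neg hi, if_neg hi]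
    refine h1.trans ?_
    rw [Fintype.card_piFinset]
    simp only [Finset.card_range, Finset.prod_const, Finset.card_univ, Fintype.card_coe]
    exact Nat.pow_le_pow_right (by omega) hA
  refine ⟨(E.image fun a => H530R2.cpart f A a : Finset _), Finset.finite_toSet _, ?_, ?_, ?_⟩
  · rw [Set.ncard_coe_finset]
    exact Finset.card_image_le.trans hEc
  · intro x hx
    obtain ⟨a, _, rfl⟩ := Finset.mem_image.1 (Finset.mem_coe.1 hx)
    exact ⟨(cpart_degree f A a).trans hf, cpart_supported f A a⟩
  · have key : ∀ S : Subalgebra F (MvPolynomial (Fin n) F), (X '' (A : Set (Fin n)) : Set (MvPolynomial (Fin n) F)) ⊆ (S : Set (MvPolynomial (Fin n) F)) →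
        (∀ a ∈ E, H530R2.cpart f A a ∈ S) → f ∈ S := by
      intro S hS1 hS2
      rw [cpart_sum f A]
      refine Subalgebra.sum_mem _ fun a ha => Subalgebra.mul_mem _ ?_ (hS2 a ha)
      have h2 : (monomial a 1 : MvPolynomial (Fin n) F) ∈
          supported F (A : Set (Fin n)) := by
        rw [mem_supported, vars_monomial one_ne_zero]
        intro i hi
        obtain ⟨e, _, rfl⟩ := Finset.mem_image.1 ha
        rw [Finset.mem_coe, Finsupp.mem_support_iff, Finsupp.filter_apply] at hi
        by_contra hc
        exact hi (if_neg hc)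
      exact Algebra.adjoin_le hS1 h2
    refine key _ (fun x hx => Algebra.subset_adjoin (Or.inl hx)) fun a ha => ?_
    exact Algebra.subset_adjoin (Or.inr (Finset.mem_coe.2 (Finset.mem_image_of_mem _ ha)))

theorem aeval_X_supp (i : Fin n) (p : Polynomial F) {S : Set (Fin n)} (h : i ∈ S) :
    Polynomial.aeval (X i : MvPolynomial (Fin n) F) p ∈ supported F S := by
  have h3 : (X i : MvPolynomial (Fin n) F) ∈ supported F S := X_mem_supported.2 h
  exact (Algebra.adjoin_le (S := supported F S) (by simpa using h3))
    (Polynomial.aeval_mem_adjoin_singleton F _)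

/-- coefficients of the members of the base class -/
theorem base_gn {w k : ℕ} (i : Fin w → Fin w → Fin n) (p : Fin w → Fin w → Polynomial F)
    (g : Fin w → MvPolynomial (Fin n) F) (hg : ∀ a, (g a).totalDegree ≤ w)
    {A : Finset (Fin n)} (hA : A.card ≤ k) :
    Gn (BaseK n w) A ((w * 2) * (w + 1) ^ k)
      (∑ a, (∏ b, Polynomial.aeval (X (i a b)) (p a b)) * g a) := by
  classical
  -- the factors without variables of `A`
  set v : Fin w → MvPolynomial (Fin n) F := fun a =>
    ∏ b, Polynomial.aeval (X (i a b)) (if i a b ∈ A then 1 else p a b) with hv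
  set h : Fin w × Bool → MvPolynomial (Fin n) F := fun x => if x.2 then v x.1 else g x.1 with hh
  have hw1 : ∀ a : Fin w, 1 ≤ w := fun a => Nat.pos_of_ne_zero fun h0 => by
    subst h0; exact a.elim0
  have hhG : ∀ x, Gn (BaseK n w) A ((w + 1) ^ k) (h x) := by
    rintro ⟨a, b⟩
    cases b with
    | true =>
      refine Gn.self ?_ ?_ (Nat.one_le_pow _ _ (Nat.succ_pos _))
      · show SP _ _ _ _
        refine ⟨Unit, inferInstance, fun _ => v a, fun _ => 1, ?_, fun _ => ?_, fun _ => ?_, ?_⟩
        · rw [Fintype.card_unit]; exact hw1 a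
        · refine ⟨List.ofFn fun b => (i a b, if i a b ∈ A then 1 else p a b), ?_, ?_⟩
          · rw [List.length_ofFn]
          · rw [List.map_ofFn, List.prod_ofFn]
            rfl
        · show (1 : MvPolynomial (Fin n) F).totalDegree ≤ w
          rw [totalDegree_one]; exact Nat.zero_le _
        · simp [hh]
      · show v a ∈ _
        refine Subalgebra.prod_mem _ fun b _ => ?_
        by_cases hb : i a b ∈ A
        · rw [if_pos hb, map_one]
          exact Subalgebra.one_mem _
        · rw [if_neg hb]
          exact aeval_X_supp _ _ hb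
    | false =>
      refine (low_gn (hg a) hA).mono ?_ le_rfl
      intro x hx
      show SP _ _ _ _
      refine ⟨Unit, inferInstance, fun _ => 1, fun _ => x, ?_, fun _ => ?_, fun _ => hx, ?_⟩
      · rw [Fintype.card_unit]; exact hw1 a
      · exact ⟨[], Nat.zero_le _, by simp⟩
      · simp
  -- the polynomial
  choose G hG hGc hGT hgG using hhG
  refine ⟨⋃ x, G x, Set.finite_iUnion hG, ?_, ?_, ?_⟩
  · have h1 : (⋃ x, G x).ncard ≤ ∑ x, (G x).ncard := Set.ncard_iUnion_le_of_fintype (fun x => G x)
    refine h1.trans ?_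
    calc ∑ x, (G x).ncard ≤ ∑ _x : Fin w × Bool, (w + 1) ^ k :=
          Finset.sum_le_sum fun x _ => hGc x
      _ = Fintype.card (Fin w × Bool) * (w + 1) ^ k := by
          rw [Finset.sum_const, Finset.card_univ, smul_eq_mul]
      _ = (w * 2) * (w + 1) ^ k := by
          rw [Fintype.card_prod, Fintype.card_fin, Fintype.card_bool]
  · intro x hx
    obtain ⟨y, hy⟩ := Set.mem_iUnion.1 hx
    exact hGT y x hy
  · have hmem : ∀ x, h x ∈ Algebra.adjoin F (X '' (A : Set (Fin n)) ∪ ⋃ x, G x) := fun x =>
      Algebra.adjoin_mono (Set.union_subset_union_right _ (Set.subset_iUnion G x)) (hgG x)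
    refine Subalgebra.sum_mem _ fun a _ => Subalgebra.mul_mem _ ?_ (hmem (a, false))
    have h1 : (∏ b, Polynomial.aeval (X (i a b) : MvPolynomial (Fin n) F) (p a b)) = v a *
        ∏ b, Polynomial.aeval (X (i a b)) (if i a b ∈ A then p a b else 1) := by
      rw [hv, ← Finset.prod_mul_distrib]
      apply Finset.prod_congr rfl
      intro b _
      by_cases hb : i a b ∈ A
      · rw [if_pos hb, if_pos hb, map_one, one_mul]
      · rw [if_neg hb, if_neg hb, map_one, mul_one]
    rw [h1]
    refine Subalgebra.mul_mem _ (hmem (a, true)) (Subalgebra.prod_mem _ fun b _ => ?_)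
    refine Algebra.adjoin_mono Set.subset_union_left ?_
    show _ ∈ supported F (A : Set (Fin n))
    by_cases hb : i a b ∈ A
    · rw [if_pos hb]
      exact aeval_X_supp _ _ (Finset.mem_coe.2 hb)
    · rw [if_neg hb, map_one]
      exact Subalgebra.one_mem _

end base

end Pool.Agent.TH668.Few
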