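import Mathlib
import Pool.Agent.W943.Orb7

/-!
Extension of a chain to more variables, and pull-backs along tuples of polynomials with some free
components.
-/

set_option autoImplicit false

namespace Pool.Agent.TH668.Few

open MvPolynomial Pool.Agent.W943

section prime

theorem map_C_prime {σ R : Type*} [CommRing R] {I : Ideal R} (hI : I.IsPrime) :
    (Ideal.map (C : R →+* MvPolynomial σ R) I).IsPrime := by
  have h1 : IsDomain (R ⧸ I) := Ideal.Quotient.isDomain I
  have h2 : IsDomain (MvPolynomial σ (R ⧸ I)) := inferInstance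
  have h3 : IsDomain (MvPolynomial σ R ⧸ Ideal.map (C : R →+* MvPolynomial σ R) I) :=
    (quotientEquivQuotientMvPolynomial (σ := σ) I).symm.toMulEquiv.isDomain _
  exact (Ideal.Quotient.isDomain_iff_prime _).1 h3

variable {F : Type*} [Field F]

/-- the inclusion into the ring with more variables -/
noncomputable def emb (F : Type*) [Field F] (n m : ℕ) :
    MvPolynomial (Fin n) F →ₐ[F] MvPolynomial (Fin (n + m)) F := rename (Fin.castAdd m)

/-- separation of the variables -/
noncomputable def sep (F : Type*) [Field F] (n m : ℕ) :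
    MvPolynomial (Fin (n + m)) F ≃ₐ[F] MvPolynomial (Fin m) (MvPolynomial (Fin n) F) :=
  (renameEquiv F (finSumFinEquiv.symm.trans (Equiv.sumComm (Fin n) (Fin m)))).trans
    (sumAlgEquiv F (Fin m) (Fin n))

theorem sep_emb {n m : ℕ} (g : MvPolynomial (Fin n) F) : sep F n m (emb F n m g) = C g := by
  have h : ((sep F n m).toAlgHom.comp (emb F n m)) = IsScalarTower.toAlgHom F
      (MvPolynomial (Fin n) F) (MvPolynomial (Fin m) (MvPolynomial (Fin n) F)) := by
    apply algHom_ext
    intro i
    simp [sep, emb]
  exact DFunLike.congr_fun h g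

theorem ext_prime {n m : ℕ} {I : Ideal (MvPolynomial (Fin n) F)} (hI : I.IsPrime) :
    (Ideal.map (emb F n m) I).IsPrime := by
  have h1 : Ideal.map (emb F n m) I = Ideal.comap (sep F n m)
      (Ideal.map (C : _ →+* MvPolynomial (Fin m) (MvPolynomial (Fin n) F)) I) := by
    apply le_antisymm
    · refine Ideal.map_le_iff_le_comap.2 fun g hg => ?_
      have h5 : sep F n m (emb F n m g) ∈
          Ideal.map (C : _ →+* MvPolynomial (Fin m) (MvPolynomial (Fin n) F)) I := by
        rw [sep_emb]
        exact Ideal.mem_map_of_mem _ hg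
      exact h5
    · intro x hx
      have h2 : Ideal.map (C : _ →+* MvPolynomial (Fin m) (MvPolynomial (Fin n) F)) I ≤
          Ideal.comap (sep F n m).symm (Ideal.map (emb F n m) I) := by
        refine Ideal.map_le_iff_le_comap.2 fun g hg => ?_
        have h5 : (sep F n m).symm (C g) ∈ Ideal.map (emb F n m) I := by
          rw [← sep_emb (m := m) g, AlgEquiv.symm_apply_apply]
          exact Ideal.mem_map_of_mem _ hg
        exact h5
      have h3 : (sep F n m).symm (sep F n m x) ∈ Ideal.map (emb F n m) I := h2 hx
      rwa [AlgEquiv.symm_apply_apply] at h3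
  rw [h1]
  have := map_C_prime (σ := Fin m) hI
  exact Ideal.IsPrime.comap _

end prime

section chain

variable {F : Type*} [Field F] {n m : ℕ}

theorem pderiv_emb_left (i : Fin n) (g : MvPolynomial (Fin n) F) :
    pderiv (Fin.castAdd m i) (emb F n m g) = emb F n m (pderiv i g) :=
  pderiv_rename (Fin.castAdd_injective n m) i g

theorem pderiv_emb_right (e : Fin m) (g : MvPolynomial (Fin n) F) :
    pderiv (Fin.natAdd n e) (emb F n m g) = 0 := by
  classical
  apply pderiv_eq_zero_of_notMem_vars
  intro h
  have h1 := vars_rename (Fin.castAdd m) g h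
  obtain ⟨i, _, hi⟩ := Finset.mem_image.1 h1
  have := congrArg Fin.val hi
  simp at this
  omega

/-- the extension of a chain to more variables -/
noncomputable def ext (V : DChain F n) (m : ℕ) : DChain F (n + m) where
  I j := Ideal.map (emb F n m) (V.I j)
  prime j := ext_prime (V.prime j)
  anti j := Ideal.map_mono (V.anti j)
  der := by
    intro j i Q h
    refine Submodule.span_induction (p := fun x _ => pderiv i x ∈ Ideal.map (emb F n m) (V.I j))
      ?_ ?_ ?_ ?_ h
    · rintro _ ⟨g, hg, rfl⟩
      refine Fin.addCases (fun i' => ?_) (fun e => ?_) i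
      · show pderiv (Fin.castAdd m i') (emb F n m g) ∈ _
        rw [pderiv_emb_left]
        exact Ideal.mem_map_of_mem _ (V.der j i' g hg)
      · show pderiv (Fin.natAdd n e) (emb F n m g) ∈ _
        rw [pderiv_emb_right]
        exact Ideal.zero_mem _
    · rw [map_zero]; exact Ideal.zero_mem _
    · intro x y _ _ hx hy
      rw [map_add]; exact Ideal.add_mem _ hx hy
    · intro a x hx hx'
      rw [smul_eq_mul, pderiv_mul]
      exact Ideal.add_mem _ (Ideal.mul_mem_left _ _ (Ideal.map_mono (V.anti j) hx))
        (Ideal.mul_mem_left _ _ hx')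

theorem mem_of_ext {V : DChain F n} {j : ℕ} {g : MvPolynomial (Fin n) F}
    (h : emb F n m g ∈ (ext V m).I j) : g ∈ V.I j := by
  set π : MvPolynomial (Fin (n + m)) F →ₐ[F] MvPolynomial (Fin n) F :=
    aeval (Fin.addCases (fun i => X i) (fun _ => 0)) with hπ
  have h1 : ∀ g, π (emb F n m g) = g := by
    intro g
    have h2 : π.comp (emb F n m) = AlgHom.id F _ := by
      apply algHom_ext
      intro i
      simp [hπ, emb]
    exact DFunLike.congr_fun h2 g
  have h3 : Ideal.map (emb F n m) (V.I j) ≤ Ideal.comap π (V.I j) := by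
    refine Ideal.map_le_iff_le_comap.2 fun x hx => ?_
    show π (emb F n m x) ∈ V.I j
    rw [h1]
    exact hx
  have h4 : π (emb F n m g) ∈ V.I j := h3 h
  rwa [h1] at h4

/-- Pull-back of a chain along a tuple of polynomials such that the Jacobian matrix of the
components outside `A` has a left inverse; the other components become free. -/
theorem pullA (V : DChain F n) (φ : Fin m → MvPolynomial (Fin n) F) (A : Finset (Fin m))
    (E : Fin m → Fin n → MvPolynomial (Fin n) F) (Δ : MvPolynomial (Fin n) F)
    (hE : ∀ i k, i ∉ A → k ∉ A → ∑ l, E i l * pderiv l (φ k) = if i = k then Δ else 0) (s : ℕ)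
    (hΔ : Δ ∉ V.I s) : ∃ V' : DChain F m, ∀ (j : ℕ) (Q : MvPolynomial (Fin m) F),
      Q ∈ supported F {k : Fin m | k ∉ A} → aeval φ Q ∈ V.I (s + j) → Q ∈ V'.I j := by
  classical
  set φ' : Fin m → MvPolynomial (Fin (n + m)) F := fun i =>
    if i ∈ A then X (Fin.natAdd n i) else emb F n m (φ i) with hφ'
  set E' : Fin m → Fin (n + m) → MvPolynomial (Fin (n + m)) F := fun i =>
    Fin.addCases (fun l => if i ∈ A then 0 else emb F n m (E i l))
      (fun e => if e = i ∧ i ∈ A then emb F n m Δ else 0) with hE'
  have hD : ∀ i k, ∑ l, E' i l * pderiv l (φ' k) = if i = k then emb F n m Δ else 0 := by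
    intro i k
    rw [Fin.sum_univ_add]
    have h1 : ∀ l : Fin n, E' i (Fin.castAdd m l) = if i ∈ A then 0 else emb F n m (E i l) :=
      fun l => by simp [hE']
    have h2 : ∀ e : Fin m, E' i (Fin.natAdd n e) = if e = i ∧ i ∈ A then emb F n m Δ else 0 :=
      fun e => by simp [hE']
    simp only [h1, h2]
    by_cases hi : i ∈ A
    · simp only [zero_mul, Finset.sum_const_zero, zero_add, hi, and_true, ite_mul,
        Finset.sum_ite_eq', Finset.mem_univ, if_true]
      by_cases hk : k ∈ A
      · simp only [hφ', if_pos hk]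
        by_cases hik : i = k
        · subst hik
          rw [if_pos rfl, pderiv_X_self, mul_one]
        · rw [if_neg hik, pderiv_X_of_ne, mul_zero]
          intro h
          exact hik (Fin.natAdd_injective m n h).symm
      · have hik : i ≠ k := fun h => hk (h ▸ hi)
        simp only [hφ', if_neg hk, if_neg hik, pderiv_emb_right, mul_zero]
    · simp only [hi, and_false, if_false, zero_mul, Finset.sum_const_zero, add_zero]
      by_cases hk : k ∈ A
      · have hik : i ≠ k := fun h => hi (h ▸ hk)
        simp only [hφ', if_pos hk, if_neg hik]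
        apply Finset.sum_eq_zero
        intro l _
        rw [pderiv_X_of_ne, mul_zero]
        intro h
        have := congrArg Fin.val h
        simp at this
        omega
      · simp only [hφ', if_neg hk, pderiv_emb_left, ← map_mul, ← map_sum]
        rw [hE i k hi hk]
        split_ifs
        · rfl
        · rw [map_zero]
  have hΔ' : emb F n m Δ ∉ (ext V m).I s := fun h => hΔ (mem_of_ext h)
  refine ⟨(ext V m).pull φ' E' _ hD s hΔ', ?_⟩
  intro j Q hQ hmem
  show aeval φ' Q ∈ (ext V m).I (s + j)
  have h1 : supported F {k : Fin m | k ∉ A} ≤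
      AlgHom.equalizer (aeval φ' : MvPolynomial (Fin m) F →ₐ[F] _) ((emb F n m).comp (aeval φ)) := by
    apply AlgHom.adjoin_le_equalizer
    rintro _ ⟨k, hk, rfl⟩
    show aeval φ' (X k) = emb F n m (aeval φ (X k))
    rw [aeval_X, aeval_X]
    exact if_neg hk
  have h2 : aeval φ' Q = emb F n m (aeval φ Q) := h1 hQ
  rw [h2]
  exact Ideal.mem_map_of_mem _ hmem

end chain

end Pool.Agent.TH668.Few
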