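import Mathlib
import Pool.Agent.TH668.Orf.F6
import Pool.Agent.TH668.Few.W1
import Pool.Agent.TH668.Few.W2

/-!
Polynomials in few formulas, evaluated at almost independent polynomials.
-/

set_option autoImplicit false

namespace Pool.Agent.TH668.Few

open MvPolynomial Module Pool.Agent.H530R2 Pool.Agent.W943 Pool.Agent.TH668.Orf

section few

variable {F : Type} [Field F] [CharZero F]

/-- values of formulas -/
def VT {k : ℕ} (L : Set (MvPolynomial (Fin k) F)) (K t : ℕ) : Set (MvPolynomial (Fin k) F) :=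
  {x | ∃ T : Tr F k, Gd L K T ∧ T.rk ≤ t ∧ x = T.val}

omit [CharZero F] in
theorem VT.leaf {k : ℕ} {L : Set (MvPolynomial (Fin k) F)} {K t : ℕ} (hK : 1 ≤ K)
    {g : MvPolynomial (Fin k) F} (hg : g ∈ L) : g ∈ VT L K t := by
  classical
  refine ⟨.leaf g, ⟨trivial, hg, fun i => ?_⟩, Nat.zero_le _, rfl⟩
  rw [Tr.occ]
  split_ifs
  · exact hK
  · exact Nat.zero_le _

omit [CharZero F] in
/-- the coefficients of the value of a formula -/
theorem VT.gn {k : ℕ} {L₀ L : Set (MvPolynomial (Fin k) F)} {A : Finset (Fin k)} {c κ w K t : ℕ}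
    (hA : A.card ≤ κ) (hL₀ : L₀ ⊆ L) (hC : ∀ y, C y ∈ L) (hL : ∀ g ∈ L₀, Gn L A c g)
    {T : Tr F k} (hT : Gd L₀ w T) (ht : T.rk ≤ t) (hK : 1 ≤ K) (hw : w ≤ K) :
    Gn (VT L K t) A (κ * w * (c + 4) + 1) T.val := by
  refine (Tr.gn2 (L := L₀) (L₁ := L) hA hL hT.1 hT.2.1 hT.2.2).mono ?_ le_rfl
  rintro x (hx | ⟨T', h1, rfl⟩)
  · exact VT.leaf hK hx
  · exact ⟨T', ⟨h1.ml hT.1, h1.lv hC (hT.2.1.mono hL₀),
      fun i => (h1.occ i).trans ((hT.2.2 i).trans hw)⟩, h1.rk.trans ht, rfl⟩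

/-- polynomials in `w` formulas over leaves with few coefficients -/
theorem few (𝔎 : FamO F) (w K W c N : ℕ) (hK : 1 ≤ K) (hw : w ≤ K) (hW : 𝔎.cc ≤ W) :
    ∃ m : ℕ, ∀ (n k t s : ℕ) (V : DChain F n) (L₀ : Set (MvPolynomial (Fin k) F)) 
      (A : Finset (Fin k)) (T : Fin w → Tr F k) (P : MvPolynomial (Fin w) F)
      (φ : Fin k → MvPolynomial (Fin n) F) (E : Fin k → Fin n → MvPolynomial (Fin n) F)
      (Δ : MvPolynomial (Fin n) F) (T' : Fin k → Fin w → Tr F k)
      (P' : Fin k → MvPolynomial (Fin w) F),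
      L₀ ⊆ 𝔎.K k W → A.card ≤ c → (∀ g ∈ L₀, Gn (𝔎.K k W) A N g) →
      (∀ i, Gd L₀ w (T i) ∧ (T i).rk ≤ t) →
      (∀ e ∈ A, ∀ i, Gd (𝔎.K k W) w (T' e i) ∧ (T' e i).rk ≤ t) →
      (∀ e ∈ A, aeval (fun i => (T' e i).val) (P' e) ∈ supported F {k : Fin k | k ∉ A}) →
      (∀ e ∈ A, φ e = aeval φ (aeval (fun i => (T' e i).val) (P' e))) →
      (∀ i j, i ∉ A → j ∉ A → ∑ l, E i l * pderiv l (φ j) = if i = j then Δ else 0) →
      Δ ∉ V.I s → aeval φ (aeval (fun i => (T i).val) P) ≠ 0 →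
      aeval φ (aeval (fun i => (T i).val) P) ∉ V.I (s + m * (t + 1)) := by
  classical
  set N₂ := c * w * (N + 4) + 1 with hN₂
  set r := c * w + w * N₂ with hr
  obtain ⟨m, hm⟩ := compositeO 𝔎 K W r
  refine ⟨m, ?_⟩
  intro n k t s V L₀ A T P φ E Δ T' P' hL₀ hA hgn hT hT' hsupp hφ hE hΔ h0 hmem
  set f := aeval (fun i => (T i).val) P with hf
  set L := 𝔎.K k W with hL
  have hC : ∀ y, C y ∈ L := fun y => 𝔎.mono hW (𝔎.const_mem y)
  -- coefficients of `f`
  have h1 : Gn (VT L K t) A (w * N₂) f := by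
    refine Gn.comb (ι := Fin w) (h := fun i => (T i).val) (by rw [Fintype.card_fin])
      (fun i => VT.gn hA hL₀ hC hgn (hT i).1 (hT i).2 hK hw) ?_
    rw [Algebra.adjoin_range_eq_range_aeval]
    exact ⟨P, rfl⟩
  obtain ⟨G, hG, hGc, hGT, hfG⟩ := h1
  -- the substitution
  set h : Fin k → MvPolynomial (Fin k) F := fun e => aeval (fun i => (T' e i).val) (P' e) with hh
  set ψ : Fin k → MvPolynomial (Fin k) F := fun i => if i ∈ A then h i else X i with hψ
  have hψA : ∀ i, ψ i ∈ supported F {k : Fin k | k ∉ A} := by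
    intro i
    simp only [hψ]
    split_ifs with hi
    · exact hsupp i hi
    · exact X_mem_supported.2 hi
  set f' := aeval ψ f with hf'
  have hf'A : f' ∈ supported F {k : Fin k | k ∉ A} := by
    have h2 : f' ∈ Algebra.adjoin F (Set.range ψ) := by
      rw [Algebra.adjoin_range_eq_range_aeval]
      exact ⟨f, rfl⟩
    refine (Algebra.adjoin_le ?_) h2
    rintro _ ⟨i, rfl⟩
    exact hψA i
  have hφψ : ∀ i, aeval φ (ψ i) = φ i := by
    intro i
    simp only [hψ]
    split_ifs with hi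
    · exact (hφ i hi).symm
    · rw [aeval_X]
  have hff' : aeval φ f' = aeval φ f := by
    have h2 : (aeval φ : MvPolynomial (Fin k) F →ₐ[F] _).comp (aeval ψ) = aeval φ := by
      apply algHom_ext
      intro i
      rw [AlgHom.comp_apply, aeval_X, aeval_X]
      exact hφψ i
    exact DFunLike.congr_fun h2 f
  have hf'0 : f' ≠ 0 := by
    intro h2
    apply h0
    rw [← hff', h2, map_zero]
  -- the formulas
  set Q : Set (MvPolynomial (Fin k) F) := (⋃ x : {x // x ∈ A} × Fin w, {(T' x.1 x.2).val}) ∪ G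
    with hQ
  have hQf : Q.Finite := (Set.finite_iUnion fun _ => Set.finite_singleton _).union hG
  have hQc : Q.ncard ≤ r := by
    refine (Set.ncard_union_le _ _).trans (Nat.add_le_add ?_ hGc)
    refine (Set.ncard_iUnion_le_of_fintype (fun x : {x // x ∈ A} × Fin w =>
      ({(T' x.1 x.2).val} : Set (MvPolynomial (Fin k) F)))).trans ?_
    simp only [Set.ncard_singleton, Finset.sum_const, Finset.card_univ, Fintype.card_prod,
      Fintype.card_coe, Fintype.card_fin, smul_eq_mul, mul_one]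
    exact Nat.mul_le_mul_right _ hA
  have hQT : ∀ x ∈ Q, x ∈ VT L K t := by
    rintro x (hx | hx)
    · obtain ⟨⟨e, i⟩, hi⟩ := Set.mem_iUnion.1 hx
      rw [Set.mem_singleton_iff] at hi
      subst hi
      have h3 := hT' e.1 e.2 i
      exact ⟨T' e i, ⟨h3.1.1, h3.1.2.1, fun x => (h3.1.2.2 x).trans hw⟩, h3.2, rfl⟩
    · exact (hGT x hx).1
  have hf'Q : f' ∈ Algebra.adjoin F Q := by
    have h2 : Algebra.adjoin F (X '' (A : Set (Fin k)) ∪ G) ≤
        (Algebra.adjoin F Q).comap (aeval ψ) := by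
      apply Algebra.adjoin_le
      rintro x (⟨e, he, rfl⟩ | hx)
      · show aeval ψ (X e) ∈ Algebra.adjoin F Q
        rw [aeval_X]
        simp only [hψ]
        rw [if_pos (Finset.mem_coe.1 he)]
        have h3 : h e ∈ Algebra.adjoin F (Set.range fun i => (T' e i).val) := by
          rw [Algebra.adjoin_range_eq_range_aeval]
          exact ⟨P' e, rfl⟩
        refine Algebra.adjoin_mono ?_ h3
        rintro _ ⟨i, rfl⟩
        exact Or.inl (Set.mem_iUnion.2 ⟨(⟨e, Finset.mem_coe.1 he⟩, i), rfl⟩)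
      · show aeval ψ x ∈ Algebra.adjoin F Q
        have h3 : aeval ψ x = x := by
          have h4 : supported F {k : Fin k | k ∉ A} ≤ AlgHom.equalizer
              (aeval ψ : MvPolynomial (Fin k) F →ₐ[F] _) (AlgHom.id F _) := by
            apply AlgHom.adjoin_le_equalizer
            rintro _ ⟨i, hi, rfl⟩
            show aeval ψ (X i) = X i
            rw [aeval_X]
            exact if_neg hi
          exact h4 (hGT x hx).2
        rw [h3]
        exact Algebra.subset_adjoin (Or.inr hx)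
    exact h2 hfG
  -- the composite
  obtain ⟨V', hV'⟩ := pullA V φ A E Δ hE s hΔ
  have hmem' : f' ∈ V'.I (m * (t + 1)) := hV' _ _ hf'A (by rw [hff']; exact hmem)
  have hfin := hQf.fintype
  set e := Fintype.equivFin Q with he
  choose τ hτ using hQT
  have hval : (fun i => (τ (e.symm i : MvPolynomial (Fin k) F) (e.symm i).2).val) =
      fun i => (e.symm i : MvPolynomial (Fin k) F) := by
    funext i
    exact (hτ _ (e.symm i).2).2.2.symm
  have hrange : Set.range (fun i => (e.symm i : MvPolynomial (Fin k) F)) = Q := by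
    ext x
    constructor
    · rintro ⟨i, rfl⟩
      exact (e.symm i).2
    · intro hx
      exact ⟨e ⟨x, hx⟩, by simp⟩
  obtain ⟨Φ, hΦ⟩ : ∃ Φ, aeval (fun i => (e.symm i : MvPolynomial (Fin k) F)) Φ = f' := by
    rw [← hrange, Algebra.adjoin_range_eq_range_aeval] at hf'Q
    exact hf'Q
  refine hm k V' t (Fintype.card Q) (fun i => τ (e.symm i) (e.symm i).2) Φ
    (fun i => (hτ _ _).1) (fun i => (hτ _ _).2.1) ?_ ?_ ?_
  · intro σ hσ
    have h3 := Fintype.card_le_of_injective σ (fun a b hab => hσ.injective (by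
      show (τ (e.symm (σ a)) _).val = (τ (e.symm (σ b)) _).val
      rw [hab]))
    rw [Fintype.card_fin, Fintype.card_fin, ← Nat.card_eq_fintype_card] at h3
    have h4 : Nat.card Q = Q.ncard := rfl
    omega
  · rw [hval, hΦ]
    exact hf'0
  · rw [hval, hΦ]
    exact hmem'

end few

section fam

/-- the families of classes -/
noncomputable def upO : ℕ → FamO ℂ
  | 0 => baseO ℂ
  | D + 1 => nextT (upO D).next

/-- the parameter of the programs -/
noncomputable def bdA (𝔎 : FamO ℂ) (w W : ℕ) : ℕ :=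
  W + w + w * w + (w * w * 𝔎.bd W + 1) ^ w + 1 + 𝔎.bd W

/-- the parameter of the classes -/
noncomputable def bdO (w : ℕ) : ℕ → ℕ
  | 0 => w
  | D + 1 => bdA (upO D) w (bdO w D) + rb (bdA (upO D) w (bdO w D)) (bdA (upO D) w (bdO w D))

/-- the number of coefficients -/
def gnO (w c : ℕ) : ℕ → ℕ
  | 0 => (w * 2) * (w + 1) ^ c
  | D + 1 => gnO w c D + ((c * w) * (w * w + w * w * gnO w c D) + w * w) +
      (c * w * (gnO w c D + 4) + 1)

theorem upO_cc (D : ℕ) : (upO D).cc = 1 := by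
  cases D <;> rfl

theorem next_up {n D W : ℕ} (hW : 1 ≤ W) {f : MvPolynomial (Fin n) ℂ}
    (hf : f ∈ (upO D).next.K n W) : f ∈ (upO (D + 1)).K n W :=
  OutT.ofK le_rfl hW le_rfl hf

end fam

end Pool.Agent.TH668.Few
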